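import Mathlib
import Pool.Agent.helper34.EL.Defs
import Pool.Agent.helper9.XL.EIG
import Pool.Agent.helper27.XL.BNZ
import Pool.Agent.helper96.XL.SAW

/-! # XL project, module NZ: non vanishing of the twisted sawtooth sums -/

set_option autoImplicit false

namespace Pool.Agent.helper34.EL

open Finset Pool.Agent.helper34.DH Pool.Agent.helper76.FV

theorem NZ_eig (n : ℕ) [NeZero n] (χ : DirichletCharacter ℂ n) (v : (ZMod n)ˣ) (x : ZMod n) :
    sawχ n χ ((v : ZMod n) * x) = χ (v : ZMod n) * sawχ n χ x := by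
  unfold sawχ
  rw [Finset.mul_sum]
  have hv : χ (v : ZMod n) ≠ 0 := IsUnit.ne_zero (IsUnit.map χ v.isUnit)
  refine Fintype.sum_equiv (Equiv.mulRight v) _ _ fun u => ?_
  have e1 : ((Equiv.mulRight v u : (ZMod n)ˣ) : ZMod n) = (u : ZMod n) * (v : ZMod n) := by simp
  rw [e1, map_mul, mul_inv, mul_assoc (u : ZMod n)]
  field_simp

theorem NZ_fiber (n : ℕ) [NeZero n] (χ : DirichletCharacter ℂ n) (x y : ZMod n) (r : ℕ)
    (hr : addOrderOf x = χ.conductor * r)
    (h2 : ∀ r : ℕ, r.Prime → r ∣ addOrderOf x → r ∣ χ.conductor)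
    (hy : (r : ZMod n) * y = r * x) : sawχ n χ y = sawχ n χ x := by
  set f := χ.conductor with hf
  have hf0 : 0 < f := Nat.pos_of_ne_zero χ.conductor_ne_zero
  have hM0 : 0 < addOrderOf x := addOrderOf_pos x
  have hr0 : 0 < r := by
    rcases Nat.eq_zero_or_pos r with h | h
    · rw [h, mul_zero] at hr
      omega
    · exact h
  -- `y - x` is a multiple of `f x`
  obtain ⟨k, hk⟩ : ∃ k : ℕ, y - x = k • (f • x) := by
    have hz : r • (y - x) = 0 := by
      rw [nsmul_eq_mul, mul_sub, hy, sub_self]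
    obtain ⟨d, hd⟩ := addOrderOf_dvd_of_nsmul_eq_zero hz
    have hord : addOrderOf (f • x) = r := by
      rw [addOrderOf_nsmul, hr, Nat.gcd_eq_right (Dvd.intro r rfl), Nat.mul_div_cancel_left r hf0]
    have hz0 : 0 < addOrderOf (y - x) := addOrderOf_pos _
    have hd0 : 0 < d := by
      rcases Nat.eq_zero_or_pos d with h | h
      · rw [h, mul_zero] at hd
        omega
      · exact h
    have hord2 : addOrderOf (d • (f • x)) = addOrderOf (y - x) := by
      rw [addOrderOf_nsmul, hord, hd, Nat.gcd_eq_right (Dvd.intro_left _ rfl),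
        Nat.mul_div_cancel _ hd0]
    obtain ⟨u, hu⟩ := EIG_unit n _ _ hord2
    refine ⟨(u : ZMod n).val * d, ?_⟩
    rw [hu, mul_smul, nsmul_eq_mul ((u : ZMod n).val), ZMod.natCast_zmod_val]
  have hyx : y = (1 + k * f) • x := by
    have : y = (y - x) + x := by ring
    rw [this, hk, add_smul, one_smul, mul_smul, add_comm]
  have hcop : (addOrderOf x).Coprime (1 + k * f) := by
    rw [Nat.coprime_iff_gcd_eq_one]
    by_contra hne
    obtain ⟨p, hp, hpd⟩ := Nat.exists_prime_and_dvd hne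
    have h3 := h2 p hp (hpd.trans (Nat.gcd_dvd_left _ _))
    have h4 := hpd.trans (Nat.gcd_dvd_right _ _)
    have h5 : p ∣ 1 := (Nat.dvd_add_left (h3.mul_left k)).1 h4
    exact hp.one_lt.ne' (Nat.dvd_one.1 h5)
  have hordy : addOrderOf x = addOrderOf y := by
    rw [hyx, addOrderOf_nsmul, hcop, Nat.div_one]
  obtain ⟨u, hu⟩ := EIG_unit n x y hordy
  rw [hu, NZ_eig]
  have h6 : (((u : ZMod n).val : ℤ) - (1 + k * f)) • x = 0 := by
    have h7 : ((u : ZMod n).val : ℤ) • x = y := by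
      rw [hu, natCast_zsmul, nsmul_eq_mul, ZMod.natCast_zmod_val]
    have h8 : ((1 : ℤ) + k * f) • x = y := by
      rw [hyx, ← natCast_zsmul]
      push_cast
      rfl
    rw [sub_smul, h7, h8, sub_self]
  have h7 : (addOrderOf x : ℤ) ∣ ((u : ZMod n).val : ℤ) - (1 + k * f) := by
    rw [addOrderOf_dvd_iff_zsmul_eq_zero]
    exact h6
  have h8 : (f : ℤ) ∣ ((u : ZMod n).val : ℤ) - (1 + k * f) := by
    refine dvd_trans ?_ h7
    rw [hr]
    push_cast
    exact Dvd.intro _ rfl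
  have h9 : ((u : ZMod n).cast : ZMod f) = 1 := by
    have h10 := (ZMod.intCast_zmod_eq_zero_iff_dvd _ f).2 h8
    push_cast at h10
    rw [ZMod.natCast_self, mul_zero, add_zero, sub_eq_zero] at h10
    rw [← ZMod.natCast_val]
    exact h10
  have h10 : χ (u : ZMod n) = 1 := by
    have h11 := DirichletCharacter.changeLevel_eq_cast_of_dvd χ.primitiveCharacter
      χ.conductor_dvd_level u
    rw [χ.changeLevel_primitiveCharacter] at h11
    rw [h11]
    exact (congrArg χ.primitiveCharacter h9).trans (map_one _)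
  rw [h10, one_mul]

theorem NZ_sum (n : ℕ) [NeZero n] (χ : DirichletCharacter ℂ n) (r : ℕ) (hr : r ∣ n) (x : ZMod n) :
    ∑ y ∈ univ.filter (fun y : ZMod n => (r : ZMod n) * y = r * x), sawχ n χ y =
      sawχ n χ (r * x) := by
  unfold sawχ
  rw [Finset.sum_comm]
  refine Finset.sum_congr rfl fun u _ => ?_
  rw [← Finset.mul_sum, ← Rat.cast_sum]
  congr 2
  have h1 := saw_dist n r hr ((u : ZMod n) * x)
  rw [← mul_assoc, mul_comm (u : ZMod n) (r : ZMod n), mul_assoc, ← h1]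
  refine Finset.sum_nbij' (fun y => (u : ZMod n) * y) (fun y => ((u⁻¹ : (ZMod n)ˣ) : ZMod n) * y)
    ?_ ?_ ?_ ?_ ?_
  · intro y hy
    rw [Finset.mem_filter] at hy ⊢
    refine ⟨mem_univ _, ?_⟩
    rw [← mul_assoc, mul_comm (r : ZMod n), mul_assoc, hy.2]
    ring
  · intro y hy
    rw [Finset.mem_filter] at hy ⊢
    refine ⟨mem_univ _, ?_⟩
    rw [← mul_assoc, mul_comm (r : ZMod n), mul_assoc, hy.2]
    have : (r : ZMod n) * x = ((u⁻¹ : (ZMod n)ˣ) : ZMod n) * (u : ZMod n) * (r * x) := by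
      rw [Units.inv_mul, one_mul]
    rw [this]
    ring
  · intro y _
    rw [← mul_assoc, Units.inv_mul, one_mul]
  · intro y _
    rw [← mul_assoc, Units.mul_inv, one_mul]
  · intro y _
    rfl

theorem NZ_conductor_gt (n : ℕ) [NeZero n] (χ : DirichletCharacter ℂ n) (hodd : χ.Odd) :
    1 < χ.conductor := by
  have h0 : 0 < χ.conductor := Nat.pos_of_ne_zero χ.conductor_ne_zero
  rcases Nat.lt_or_ge 1 χ.conductor with h | h
  · exact h
  · exfalso
    have h1 : χ.conductor = 1 := by omega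
    have h2 : χ = 1 := DirichletCharacter.eq_one_iff_conductor_eq_one.2 h1
    have h3 : χ (-1) = -1 := hodd
    rw [h2, MulChar.one_apply (IsUnit.neg isUnit_one)] at h3
    norm_num at h3

theorem NZ_base (n : ℕ) [NeZero n] (χ : DirichletCharacter ℂ n) (hodd : χ.Odd) :
    sawχ n χ ((n / χ.conductor : ℕ) : ZMod n) ≠ 0 := by
  set f := χ.conductor with hf
  have hf1 : 1 < f := NZ_conductor_gt n χ hodd
  have : NeZero f := ⟨by omega⟩
  have : Fact (1 < f) := ⟨hf1⟩
  have hfn : f ∣ n := χ.conductor_dvd_level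
  set ψ : DirichletCharacter ℂ f := χ.primitiveCharacter with hψ
  have hψp : ψ.IsPrimitive := χ.primitiveCharacter_isPrimitive
  have hχψ : ∀ u : (ZMod n)ˣ, χ (u : ZMod n) = ψ ((ZMod.unitsMap hfn u : (ZMod f)ˣ) : ZMod f) := by
    intro u
    rw [ZMod.unitsMap_val, ← DirichletCharacter.changeLevel_eq_cast_of_dvd ψ hfn,
      hψ, χ.changeLevel_primitiveCharacter]
  have hψodd : ψ.Odd := by
    have h3 : χ (-1) = -1 := hodd
    have h4 := hχψ (-1)
    rw [Units.val_neg, Units.val_one, h3] at h4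
    have h5 : ((ZMod.unitsMap hfn (-1) : (ZMod f)ˣ) : ZMod f) = -1 := by
      rw [ZMod.unitsMap_val, Units.val_neg, Units.val_one, ZMod.cast_neg hfn, ZMod.cast_one hfn]
    rw [h5] at h4
    exact h4.symm
  -- the sum descends to level `f`
  have h1 : sawχ n χ ((n / f : ℕ) : ZMod n) = ∑ u : (ZMod n)ˣ,
      (fun w : (ZMod f)ˣ => (ψ (w : ZMod f))⁻¹ * ((saw f (w : ZMod f) : ℚ) : ℂ))
        (ZMod.unitsMap hfn u) := by
    unfold sawχ
    refine Finset.sum_congr rfl fun u _ => ?_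
    rw [hχψ u]
    have h2 := saw_level n f hfn ((u : ZMod n).val : ℤ)
    have h3 : (((u : ZMod n).val : ℤ) : ZMod n) = u := by
      rw [Int.cast_natCast, ZMod.natCast_zmod_val]
    have h4 : (((u : ZMod n).val : ℤ) : ZMod f) = ((ZMod.unitsMap hfn u : (ZMod f)ˣ) : ZMod f) := by
      rw [Int.cast_natCast, ZMod.unitsMap_val, ZMod.natCast_val]
    rw [h3, h4] at h2
    rw [mul_comm (u : ZMod n), h2]
  have h2 : ∑ u : (ZMod n)ˣ,
      (fun w : (ZMod f)ˣ => (ψ (w : ZMod f))⁻¹ * ((saw f (w : ZMod f) : ℚ) : ℂ))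
        (ZMod.unitsMap hfn u) = ((univ.filter (fun u : (ZMod n)ˣ => ZMod.unitsMap hfn u = 1)).card : ℂ)
      * ∑ w : (ZMod f)ˣ, (ψ (w : ZMod f))⁻¹ * ((saw f (w : ZMod f) : ℚ) : ℂ) := by
    rw [← Finset.sum_fiberwise (s := univ) (g := fun u : (ZMod n)ˣ => ZMod.unitsMap hfn u),
      Finset.mul_sum]
    refine Finset.sum_congr rfl fun w _ => ?_
    rw [Finset.sum_congr rfl (g := fun _ => (ψ (w : ZMod f))⁻¹ * ((saw f (w : ZMod f) : ℚ) : ℂ))
      (fun u hu => by rw [(Finset.mem_filter.1 hu).2]), Finset.sum_const, nsmul_eq_mul]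
    congr 2
    have hs := ZMod.unitsMap_surjective hfn
    exact MonoidHom.card_fiber_eq_of_mem_range (ZMod.unitsMap hfn) (hs w) (hs 1)
  have h3 : ∑ w : (ZMod f)ˣ, (ψ (w : ZMod f))⁻¹ * ((saw f (w : ZMod f) : ℚ) : ℂ) =
      ∑ w : ZMod f, ψ⁻¹ w * (((w.val : ℂ) / f) - 1 / 2) := by
    refine Fintype.sum_of_injective (fun w : (ZMod f)ˣ => (w : ZMod f)) Units.val_injective _ _ ?_ ?_
    · intro w hw
      have : ¬ IsUnit w := fun h => hw ⟨h.unit, h.unit_spec⟩
      rw [MulChar.map_nonunit _ this, zero_mul]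
    · intro w
      rw [MulChar.inv_apply_eq_inv']
      congr 1
      unfold saw
      rw [if_neg w.ne_zero]
      push_cast
      rfl
  have hψ1 : ψ⁻¹ ≠ 1 := by
    intro h
    have h5 : ψ = 1 := by rw [← inv_inv ψ, h, inv_one]
    have h6 : ψ (-1) = -1 := hψodd
    rw [h5, MulChar.one_apply (IsUnit.neg isUnit_one)] at h6
    norm_num at h6
  have h4 : ∑ w : ZMod f, ψ⁻¹ w * (((w.val : ℂ) / f) - 1 / 2) =
      (∑ w : ZMod f, ψ⁻¹ w * (w.val : ℂ)) / f := by
    have h5 : ∑ w : ZMod f, ψ⁻¹ w = 0 := MulChar.sum_eq_zero_of_ne_one hψ1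
    have h6 : ∀ w : ZMod f, ψ⁻¹ w * (((w.val : ℂ) / f) - 1 / 2) =
        ψ⁻¹ w * (w.val : ℂ) / f - ψ⁻¹ w * (1 / 2) := fun w => by ring
    rw [Finset.sum_congr rfl (fun w _ => h6 w), Finset.sum_sub_distrib, ← Finset.sum_mul, h5,
      zero_mul, sub_zero, Finset.sum_div]
  rw [h1, h2, h3, h4]
  refine mul_ne_zero ?_ (div_ne_zero ?_ ?_)
  · rw [Nat.cast_ne_zero]
    exact (Finset.card_pos.2 ⟨1, by simp⟩).ne'
  · refine bern_ne_zero f ψ⁻¹ ?_ ?_
    · rw [DirichletCharacter.isPrimitive_def, DirichletCharacter.conductor_inv]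
      exact hψp
    · change ψ⁻¹ (-1) = -1
      have h6 : ψ (-1) = -1 := hψodd
      rw [MulChar.inv_apply_eq_inv', h6]
      norm_num
  · rw [Nat.cast_ne_zero]
    omega

theorem sawχ_ne_zero (n : ℕ) [NeZero n] (χ : DirichletCharacter ℂ n) (hodd : χ.Odd) (x : ZMod n)
    (h1 : χ.conductor ∣ addOrderOf x)
    (h2 : ∀ r : ℕ, r.Prime → r ∣ addOrderOf x → r ∣ χ.conductor) : sawχ n χ x ≠ 0 := by
  obtain ⟨r, hr⟩ := h1
  have hf0 : 0 < χ.conductor := Nat.pos_of_ne_zero χ.conductor_ne_zero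
  have hMn : addOrderOf x ∣ n := EIG_order_dvd n x
  have hrn : r ∣ n := (Dvd.intro_left _ hr.symm).trans hMn
  have hn0 : 0 < n := Nat.pos_of_ne_zero (NeZero.ne n)
  intro h0
  have h3 : sawχ n χ (r * x) = 0 := by
    rw [← NZ_sum n χ r hrn x]
    refine Finset.sum_eq_zero fun y hy => ?_
    rw [NZ_fiber n χ x y r hr h2 (Finset.mem_filter.1 hy).2, h0]
  have hordr : addOrderOf ((r : ZMod n) * x) = χ.conductor := by
    have hr0 : 0 < r := Nat.pos_of_dvd_of_pos hrn hn0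
    rw [← nsmul_eq_mul, addOrderOf_nsmul, hr, Nat.gcd_eq_right (Dvd.intro_left _ rfl),
      Nat.mul_div_cancel _ hr0]
  have hordb : addOrderOf ((n / χ.conductor : ℕ) : ZMod n) = χ.conductor := by
    have h5 : χ.conductor ∣ n := χ.conductor_dvd_level
    rw [ZMod.addOrderOf_coe _ (NeZero.ne n), Nat.gcd_eq_right (Nat.div_dvd_of_dvd h5),
      Nat.div_div_self h5 (NeZero.ne n)]
  obtain ⟨u, hu⟩ := EIG_unit n ((r : ZMod n) * x) _ (hordr.trans hordb.symm)
  apply NZ_base n χ hodd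
  rw [hu, NZ_eig, h3, mul_zero]

end Pool.Agent.helper34.EL
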