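import Mathlib
import Pool.Agent.helper34.EL.Defs

/-! # XL project, module PIG: the pigeonhole step -/

set_option autoImplicit false

namespace Pool.Agent.helper34.EL

open Finset Pool.Agent.helper34.DH Pool.Agent.helper76.FV

theorem PIG_order (n p f n' : ℕ) [NeZero n] (hp : p.Prime) (hn : n = p ^ f * n') (x : ZMod n) :
    ∃ e : ℕ, ∀ j : ℕ, addOrderOf (((p ^ j * n' : ℕ) : ZMod n) * x) = p ^ (e - j) := by
  have h0 : p ^ f • ((n' : ZMod n) * x) = 0 := by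
    rw [nsmul_eq_mul, ← mul_assoc, ← Nat.cast_mul, ← hn, ZMod.natCast_self, zero_mul]
  obtain ⟨e, _, hord⟩ := (Nat.dvd_prime_pow hp).1 (addOrderOf_dvd_of_nsmul_eq_zero h0)
  refine ⟨e, fun j => ?_⟩
  have h1 : (((p ^ j * n' : ℕ) : ZMod n) * x) = p ^ j • ((n' : ZMod n) * x) := by
    rw [nsmul_eq_mul, Nat.cast_mul, mul_assoc]
  rw [h1, addOrderOf_nsmul, hord]
  rcases le_total e j with h | h
  · rw [Nat.gcd_eq_left (pow_dvd_pow p h), Nat.div_self (pow_pos hp.pos e), Nat.sub_eq_zero_of_le h,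
      pow_zero]
  · rw [Nat.gcd_eq_right (pow_dvd_pow p h), Nat.pow_div h hp.pos]

theorem PIG_term (p e j : ℕ) (hp : p.Prime) :
    ((p : ℚ) - 1) * (if j < e then (1 : ℚ) / ((p ^ (e - j) : ℕ) : ℚ) else 0) =
      1 / (p : ℚ) ^ (e - (j + 1)) - 1 / (p : ℚ) ^ (e - j) := by
  have hp0 : (p : ℚ) ≠ 0 := by exact_mod_cast hp.ne_zero
  split_ifs with h
  · obtain ⟨d, hd⟩ : ∃ d, e - j = d + 1 := ⟨e - j - 1, by omega⟩
    have hd' : e - (j + 1) = d := by omega
    rw [hd, hd']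
    push_cast
    field_simp
    ring
  · have h1 : e - j = 0 := by omega
    have h2 : e - (j + 1) = 0 := by omega
    rw [h1, h2]
    simp

theorem PIG_sum (p e j₀ J : ℕ) (hp : p.Prime) :
    ∑ l ∈ range J, ((p : ℚ) - 1) * (if j₀ + l < e then (1 : ℚ) / ((p ^ (e - (j₀ + l)) : ℕ) : ℚ) else 0)
      ≤ 1 := by
  have h : ∀ J : ℕ, ∑ l ∈ range J,
      ((p : ℚ) - 1) * (if j₀ + l < e then (1 : ℚ) / ((p ^ (e - (j₀ + l)) : ℕ) : ℚ) else 0) =
      1 / (p : ℚ) ^ (e - (j₀ + J)) - 1 / (p : ℚ) ^ (e - j₀) := by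
    intro J
    induction J with
    | zero => simp
    | succ J ih =>
      rw [Finset.sum_range_succ, ih, PIG_term p e (j₀ + J) hp, ← Nat.add_assoc]
      ring
  rw [h]
  have hp1 : (1 : ℚ) ≤ p := by exact_mod_cast hp.one_lt.le
  have h1 : 1 / (p : ℚ) ^ (e - (j₀ + J)) ≤ 1 := by
    rw [div_le_one (by positivity)]
    exact one_le_pow₀ hp1
  have h2 : (0 : ℚ) ≤ 1 / (p : ℚ) ^ (e - j₀) := by positivity
  linarith

theorem pigeon (n p f n' j₀ : ℕ) [NeZero n] (hp : p.Prime) (hn : n = p ^ f * n')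
    (hpn : ¬ p ∣ n') {ι : Type} [Fintype ι] [DecidableEq ι] (a : ι → ZMod n) :
    ∃ j, j₀ ≤ j ∧ j ≤ j₀ + 3 * Fintype.card ι / (p - 1) ∧
      ∑ i ∈ univ.filter (fun i => ((p ^ j * n' : ℕ) : ZMod n) * a i ≠ 0),
        (1 : ℚ) / addOrderOf (((p ^ j * n' : ℕ) : ZMod n) * a i) < 1 / 3 := by
  have _ := hpn
  choose e he using fun i => PIG_order n p f n' hp hn (a i)
  have hS : ∀ j, ∑ i ∈ univ.filter (fun i => ((p ^ j * n' : ℕ) : ZMod n) * a i ≠ 0),
        (1 : ℚ) / addOrderOf (((p ^ j * n' : ℕ) : ZMod n) * a i) =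
      ∑ i, if j < e i then (1 : ℚ) / ((p ^ (e i - j) : ℕ) : ℚ) else 0 := by
    intro j
    rw [Finset.sum_filter]
    refine Finset.sum_congr rfl fun i _ => ?_
    rw [he i j]
    have h1 : ((p ^ j * n' : ℕ) : ZMod n) * a i ≠ 0 ↔ j < e i := by
      rw [Ne, ← AddMonoid.addOrderOf_eq_one_iff, he i j]
      constructor
      · intro h
        by_contra h'
        exact h (by rw [Nat.sub_eq_zero_of_le (not_lt.1 h'), pow_zero])
      · intro h h'
        have h2 : e i - j ≠ 0 := by omega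
        exact h2 ((Nat.pow_eq_one.1 h').resolve_left hp.one_lt.ne')
    simp only [h1]
  by_contra hcon
  push Not at hcon
  set J := 3 * Fintype.card ι / (p - 1) with hJ
  have hp1 : 0 < p - 1 := by have := hp.two_le; omega
  have hp1' : ((p - 1 : ℕ) : ℚ) = (p : ℚ) - 1 := by
    rw [Nat.cast_sub hp.one_lt.le, Nat.cast_one]
  have hlow : ∀ l ∈ range (J + 1), ((p : ℚ) - 1) * (1 / 3) ≤ ((p : ℚ) - 1) *
      ∑ i, if j₀ + l < e i then (1 : ℚ) / ((p ^ (e i - (j₀ + l)) : ℕ) : ℚ) else 0 := by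
    intro l hl
    have hl' := Finset.mem_range.1 hl
    have := hcon (j₀ + l) (by omega) (by omega)
    rw [hS] at this
    refine mul_le_mul_of_nonneg_left this ?_
    rw [← hp1']
    positivity
  have h1 := Finset.sum_le_sum hlow
  rw [Finset.sum_const, card_range, nsmul_eq_mul] at h1
  have h2 : ∑ l ∈ range (J + 1), ((p : ℚ) - 1) *
      ∑ i, (if j₀ + l < e i then (1 : ℚ) / ((p ^ (e i - (j₀ + l)) : ℕ) : ℚ) else 0) =
      ∑ i, ∑ l ∈ range (J + 1), ((p : ℚ) - 1) *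
        (if j₀ + l < e i then (1 : ℚ) / ((p ^ (e i - (j₀ + l)) : ℕ) : ℚ) else 0) := by
    rw [Finset.sum_comm]
    refine Finset.sum_congr rfl fun l _ => ?_
    rw [Finset.mul_sum]
  rw [h2] at h1
  have h3 : ∑ i, ∑ l ∈ range (J + 1), ((p : ℚ) - 1) *
        (if j₀ + l < e i then (1 : ℚ) / ((p ^ (e i - (j₀ + l)) : ℕ) : ℚ) else 0) ≤
        ∑ _i : ι, (1 : ℚ) :=
    Finset.sum_le_sum fun i _ => PIG_sum p (e i) j₀ (J + 1) hp
  rw [Finset.sum_const, card_univ, nsmul_eq_mul, mul_one] at h3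
  have h4 : 3 * Fintype.card ι < (p - 1) * (J + 1) := Nat.lt_mul_div_succ _ hp1
  have h5 : (3 * Fintype.card ι : ℚ) < ((p : ℚ) - 1) * (J + 1) := by
    rw [← hp1']
    exact_mod_cast h4
  have h6 := h1.trans h3
  push_cast at h6
  linarith

end Pool.Agent.helper34.EL
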